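import Pool.Agent.Helper32.OIP.Goals

set_option autoImplicit false

namespace Pool.Agent.Helper82.OIP

open MeasureTheory Pool.Agent.Helper32.OIP Pool.Agent.Helper58.Orb

/-- log-sum inequality -/
theorem logsum {M : Type} (B : Finset M) (p r : M → ℝ) (hp : ∀ m, 0 ≤ p m)
    (hpr : ∀ m, p m ≤ r m) :
    (∑ m ∈ B, p m) * (Real.log (∑ m ∈ B, p m) - Real.log (∑ m ∈ B, r m)) ≤
      ∑ m ∈ B, p m * (Real.log (p m) - Real.log (r m)) := by
  set P := ∑ m ∈ B, p m with hP
  set R := ∑ m ∈ B, r m with hR
  have hP0 : 0 ≤ P := Finset.sum_nonneg fun m _ => hp m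
  have hPR : P ≤ R := Finset.sum_le_sum fun m _ => hpr m
  rcases hP0.eq_or_lt with h0 | hpos
  · have hz : ∀ m ∈ B, p m = 0 := by
      have := (Finset.sum_eq_zero_iff_of_nonneg (fun m _ => hp m)).mp h0.symm
      exact this
    rw [← h0, zero_mul]
    refine le_of_eq (Finset.sum_eq_zero fun m hm => ?_).symm
    rw [hz m hm, zero_mul]
  · have hRpos : 0 < R := lt_of_lt_of_le hpos hPR
    have hterm : ∀ m ∈ B, p m - r m * P / R ≤
        p m * (Real.log (p m) - Real.log (r m)) - p m * (Real.log P - Real.log R) := by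
      intro m _
      rcases (hp m).eq_or_lt with h1 | h1
      · rw [← h1]
        have : 0 ≤ r m := by rw [h1]; exact hpr m
        have : 0 ≤ r m * P / R := by positivity
        linarith
      · have hrm : 0 < r m := lt_of_lt_of_le h1 (hpr m)
        have hx : 0 < p m * R / (r m * P) := by positivity
        have h2 := Real.one_sub_inv_le_log_of_pos hx
        have h3 : Real.log (p m * R / (r m * P)) =
            (Real.log (p m) - Real.log (r m)) - (Real.log P - Real.log R) := by
          rw [Real.log_div (by positivity) (by positivity), Real.log_mul h1.ne' hRpos.ne',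
            Real.log_mul hrm.ne' hpos.ne']
          ring
        rw [h3] at h2
        have h4 := mul_le_mul_of_nonneg_left h2 h1.le
        have h5 : p m * (1 - (p m * R / (r m * P))⁻¹) = p m - r m * P / R := by
          field_simp
        rw [h5] at h4
        linarith
    have hsum := Finset.sum_le_sum hterm
    rw [Finset.sum_sub_distrib, Finset.sum_sub_distrib] at hsum
    have e1 : ∑ m ∈ B, r m * P / R = P := by
      rw [← Finset.sum_div, ← Finset.sum_mul, ← hR]
      field_simp
    have e2 : ∑ m ∈ B, p m * (Real.log P - Real.log R) = P * (Real.log P - Real.log R) := by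
      rw [← Finset.sum_mul]
    rw [e1, e2, ← hP] at hsum
    linarith

/-- superadditivity on one block -/
theorem block_super {M : Type} (B : Finset M) (p q : M → ℝ) (hp : ∀ m, 0 ≤ p m)
    (hq : ∀ m, 0 ≤ q m) :
    (∑ m ∈ B, Real.negMulLog (p m) - Real.negMulLog (∑ m ∈ B, p m)) +
      (∑ m ∈ B, Real.negMulLog (q m) - Real.negMulLog (∑ m ∈ B, q m)) ≤
    ∑ m ∈ B, Real.negMulLog (p m + q m) - Real.negMulLog (∑ m ∈ B, (p m + q m)) := by
  have h1 := logsum B p (fun m => p m + q m) hp (fun m => by linarith [hq m])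
  have h2 := logsum B q (fun m => p m + q m) hq (fun m => by linarith [hp m])
  set P := ∑ m ∈ B, p m
  set Q := ∑ m ∈ B, q m
  have hR : ∑ m ∈ B, (p m + q m) = P + Q := Finset.sum_add_distrib
  rw [hR] at h1 h2 ⊢
  have e1 : ∑ m ∈ B, p m * (Real.log (p m) - Real.log (p m + q m)) =
      - ∑ m ∈ B, Real.negMulLog (p m) - ∑ m ∈ B, p m * Real.log (p m + q m) := by
    rw [← Finset.sum_neg_distrib, ← Finset.sum_sub_distrib]
    exact Finset.sum_congr rfl fun m _ => by rw [Real.negMulLog]; ring
  have e2 : ∑ m ∈ B, q m * (Real.log (q m) - Real.log (p m + q m)) =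
      - ∑ m ∈ B, Real.negMulLog (q m) - ∑ m ∈ B, q m * Real.log (p m + q m) := by
    rw [← Finset.sum_neg_distrib, ← Finset.sum_sub_distrib]
    exact Finset.sum_congr rfl fun m _ => by rw [Real.negMulLog]; ring
  have e3 : ∑ m ∈ B, Real.negMulLog (p m + q m) =
      - ∑ m ∈ B, p m * Real.log (p m + q m) - ∑ m ∈ B, q m * Real.log (p m + q m) := by
    rw [← Finset.sum_neg_distrib, ← Finset.sum_sub_distrib]
    exact Finset.sum_congr rfl fun m _ => by rw [Real.negMulLog]; ring
  rw [e1] at h1
  rw [e2] at h2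
  rw [e3]
  simp only [Real.negMulLog] at *
  linarith

/-- the function of the goal -/
noncomputable def GG {M M' : Type} [Fintype M] [Fintype M'] [DecidableEq M'] (φ : M → M')
    (p : M → ℝ) : ℝ :=
  ∑ m, Real.negMulLog (p m) -
      ∑ m', Real.negMulLog (∑ m ∈ Finset.univ.filter (fun m => φ m = m'), p m)

theorem GG_eq {M M' : Type} [Fintype M] [Fintype M'] [DecidableEq M'] (φ : M → M')
    (p : M → ℝ) :
    GG φ p = ∑ m', (∑ m ∈ Finset.univ.filter (fun m => φ m = m'), Real.negMulLog (p m) -
      Real.negMulLog (∑ m ∈ Finset.univ.filter (fun m => φ m = m'), p m)) := by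
  unfold GG
  rw [Finset.sum_sub_distrib, Finset.sum_fiberwise]

theorem GG_super {M M' : Type} [Fintype M] [Fintype M'] [DecidableEq M'] (φ : M → M')
    (p q : M → ℝ) (hp : ∀ m, 0 ≤ p m) (hq : ∀ m, 0 ≤ q m) :
    GG φ p + GG φ q ≤ GG φ (p + q) := by
  rw [GG_eq, GG_eq, GG_eq, ← Finset.sum_add_distrib]
  exact Finset.sum_le_sum fun m' _ => block_super _ p q hp hq

theorem GG_smul {M M' : Type} [Fintype M] [Fintype M'] [DecidableEq M'] (φ : M → M')
    (c : ℝ) (p : M → ℝ) : GG φ (c • p) = c * GG φ p := by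
  unfold GG
  have e1 : ∑ m, Real.negMulLog ((c • p) m) =
      c * ∑ m, Real.negMulLog (p m) + Real.negMulLog c * ∑ m, p m := by
    rw [Finset.mul_sum, Finset.mul_sum, ← Finset.sum_add_distrib]
    refine Finset.sum_congr rfl fun m _ => ?_
    rw [Pi.smul_apply, smul_eq_mul, Real.negMulLog_mul]
    ring
  have e2 : ∑ m', Real.negMulLog (∑ m ∈ Finset.univ.filter (fun m => φ m = m'), (c • p) m) =
      c * ∑ m', Real.negMulLog (∑ m ∈ Finset.univ.filter (fun m => φ m = m'), p m) +
        Real.negMulLog c * ∑ m, p m := by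
    rw [← Finset.sum_fiberwise Finset.univ φ p, Finset.mul_sum, Finset.mul_sum,
      ← Finset.sum_add_distrib]
    refine Finset.sum_congr rfl fun m' _ => ?_
    have : ∑ m ∈ Finset.univ.filter (fun m => φ m = m'), (c • p) m =
        c * ∑ m ∈ Finset.univ.filter (fun m => φ m = m'), p m := by
      rw [Finset.mul_sum]
      rfl
    rw [this, Real.negMulLog_mul]
    ring
  rw [e1, e2]
  ring

theorem e1 : GoalE1 := by
  intro M M' _ _ _ φ
  refine ⟨?_, ?_⟩
  · intro x hx y hy a b ha hb _ m
    have h1 : 0 ≤ x m := hx m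
    have h2 : 0 ≤ y m := hy m
    show 0 ≤ a * x m + b * y m
    positivity
  · intro x hx y hy a b ha hb _
    show a * GG φ x + b * GG φ y ≤ GG φ (a • x + b • y)
    rw [← GG_smul, ← GG_smul]
    refine GG_super φ _ _ ?_ ?_
    · intro m
      have h1 : 0 ≤ x m := hx m
      show 0 ≤ a * x m
      positivity
    · intro m
      have h2 : 0 ≤ y m := hy m
      show 0 ≤ b * y m
      positivity

end Pool.Agent.Helper82.OIP
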